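import Pool.Agent.BEG.Stmts

/-!
# Squad BEG (MP_be01ff_an), row TGT: test functions composed with an isometry
-/

namespace Pool.Agent.BEG.H79

open Set Filter Topology MeasureTheory
open scoped InnerProductSpace ENNReal
open Pool.Agent.BE01 Pool.Agent.BEL Pool.Agent.BEF Pool.Agent.BEN Pool.Agent.BEH Pool.Agent.BEG

noncomputable section

/-- `mv g` as a homeomorphism. -/
def hm {d : ℕ} (g : (En d ≃ₗᵢ[ℝ] En d) × En d) : En d ≃ₜ En d :=
  g.1.toHomeomorph.trans (Homeomorph.addRight g.2)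

theorem hm_apply {d : ℕ} (g : (En d ≃ₗᵢ[ℝ] En d) × En d) (x : En d) : hm g x = mv g x := rfl

theorem hm_fun {d : ℕ} (g : (En d ≃ₗᵢ[ℝ] En d) × En d) : ⇑(hm g) = mv g := rfl

theorem mv_fderiv {d : ℕ} (g : (En d ≃ₗᵢ[ℝ] En d) × En d) (x : En d) :
    HasFDerivAt (mv g) (g.1.toContinuousLinearEquiv : En d →L[ℝ] En d) x := by
  have h := (g.1.toContinuousLinearEquiv : En d →L[ℝ] En d).hasFDerivAt (x := x)
  exact h.add_const g.2

theorem mv_smooth {d : ℕ} (g : (En d ≃ₗᵢ[ℝ] En d) × En d) :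
    ContDiff ℝ ((⊤ : ℕ∞) : WithTop ℕ∞) (mv g) :=
  (g.1.toContinuousLinearEquiv : En d →L[ℝ] En d).contDiff.add contDiff_const

theorem tgt : TgtStmt := by
  intro d Ω g ψ hg hψ
  obtain ⟨h1, h2, h3⟩ := hψ
  have hpre : mv g ⁻¹' Ω = Ω := by
    have hinj : Function.Injective (mv g) := by
      rw [← hm_fun]
      exact (hm g).injective
    have h4 := hinj.preimage_image Ω
    rwa [hg] at h4
  refine ⟨⟨h1.comp (mv_smooth g), ?_, ?_⟩, ?_⟩
  · exact h2.comp_homeomorph (hm g)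
  · have h5 : tsupport (ψ ∘ (hm g)) = (hm g) ⁻¹' tsupport ψ := tsupport_comp_eq_preimage ψ (hm g)
    have h6 : tsupport (fun x => ψ (mv g x)) = (mv g) ⁻¹' tsupport ψ := h5
    rw [h6, ← hpre]
    exact preimage_mono h3
  · intro x
    have hd : HasGradientAt ψ (gradient ψ (mv g x)) (mv g x) :=
      ((h1.differentiable (by simp)) (mv g x)).hasGradientAt
    have hd2 := (hasGradientAt_iff_hasFDerivAt.1 hd).comp x (mv_fderiv g x)
    have hd3 : HasGradientAt (fun y => ψ (mv g y)) (g.1.symm (gradient ψ (mv g x))) x := by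
      rw [hasGradientAt_iff_hasFDerivAt]
      refine HasFDerivAt.congr_fderiv hd2 ?_
      ext w
      show ⟪gradient ψ (mv g x), g.1 w⟫_ℝ = ⟪g.1.symm (gradient ψ (mv g x)), w⟫_ℝ
      rw [← g.1.inner_map_map (g.1.symm (gradient ψ (mv g x))) w, g.1.apply_symm_apply]
    exact hd3.gradient

end

end Pool.Agent.BEG.H79
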